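import Pool.Agent.helper69.AD.GS6

/-!
Module XE3 (MP_a29257_gt): the ideal points which are not visible from a plaque.
-/

open scoped MatrixGroups LinearAlgebra.Projectivization
open Matrix UpperHalfPlane

namespace AdSBend

noncomputable section

open LeafSystem

/-- an ideal point behind `q` is behind `r` if `q` is inside `r` -/
theorem XE3_behind_trans (bd4 : BD4_stmt) {q r : Bd × Bd} {c : Bd} (h : Behind q c)
    (hqr : Inside q r) : Behind r c := by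
  obtain ⟨b1, b2, b3, b4, b5, -⟩ := bd4
  obtain ⟨h1, h2⟩ := hqr
  have h3 : Cyc q.1 c q.2 := h
  have h4 := (b5 _ _ _ _ h3 (b2 _ _ _ h1)).2
  have h5 : Cyc r.1 c q.2 := b2 _ _ _ (b2 _ _ _ h4)
  exact (b5 _ _ _ _ h5 h2).1

theorem XE3_side_sw (pt1 : PT1_stmt) (z : ℍ) (x y : Bd) : side z y x = - side z x y :=
  (pt1 1 z x y).2.2.2

/-- two different leaves near `z` are facing each other -/
theorem XE3_facing (pt1 : PT1_stmt) (pt3 : PT3_stmt) (pn1 : PN1_stmt)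
    {Γ : Subgroup SL(2, ℝ)} (hΓ : IsClosedSurfaceGroup Γ) (S : LeafSystem Γ) {p q : Bd × Bd}
    (hp : p ∈ S.L) (hq : q ∈ S.L) {z : ℍ} (hpz : S.Near p z) (hqz : S.Near q z) (hne : q ≠ p) :
    Facing p q := by
  have hne' : q ≠ (p.2, p.1) := by
    rintro rfl
    have h1 : side z p.1 p.2 < 0 := hpz.2.1
    have h2 : side z p.2 p.1 < 0 := hqz.2.1
    rw [XE3_side_sw pt1] at h2
    linarith
  rcases pn1 Γ hΓ S p hp q hq hne hne' with h | h | h | h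
  · exact absurd h (hpz.2.2 q hq hqz.2.1)
  · exact absurd h (hqz.2.2 p hp hpz.2.1)
  · exact h
  · have h1 : side z p.1 p.2 < 0 := hpz.2.1
    have h2 : side z q.1 q.2 < 0 := hqz.2.1
    have h3 := pt3.2 (p.2, p.1) (q.2, q.1) z h (by
      show 0 ≤ side z p.2 p.1
      rw [XE3_side_sw pt1]; linarith)
    have h4 : side z q.2 q.1 < 0 := h3
    rw [XE3_side_sw pt1] at h4
    linarith

/-- facing leaves have nothing behind both of them -/
theorem XE3_facing_behind (bd4 : BD4_stmt) {p q : Bd × Bd} {c : Bd} (h : Facing p q)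
    (hp : Behind p c) (hq : Behind q c) : False := by
  obtain ⟨b1, b2, b3, b4, b5, -⟩ := bd4
  obtain ⟨h1, h2⟩ := h
  have h3 := (b5 _ _ _ _ (hp : Cyc p.1 c p.2) h1).1
  have h4 := (b5 _ _ _ _ h3 h2).2
  exact b3 _ _ _ (hq : Cyc q.1 c q.2) (b2 _ _ _ h4)

/-- visibility with oriented leaves -/
theorem XE3_vis_iff (pt1 : PT1_stmt) {Γ : Subgroup SL(2, ℝ)} (S : LeafSystem Γ) (z : ℍ) (c : Bd) :
    ¬ S.Vis z c ↔ ∃ p ∈ S.L, FrontPt p z ∧ Behind p c := by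
  unfold LeafSystem.Vis
  push Not
  constructor
  · rintro ⟨p, hp, (⟨h1, h2⟩ | ⟨h1, h2⟩)⟩
    · refine ⟨(p.2, p.1), S.swap p hp, ?_, h2⟩
      show side z p.2 p.1 < 0
      rw [XE3_side_sw pt1]; linarith
    · exact ⟨p, hp, h1, h2⟩
  · rintro ⟨p, hp, h1, h2⟩
    exact ⟨p, hp, Or.inr ⟨h1, h2⟩⟩

/-- the outermost leaf -/
theorem XE3_outer (bd12 : BD12_stmt) (pt1 : PT1_stmt) (pt3 : PT3_stmt) (gm5 : GM5_stmt)
    (pn3 : PN3_stmt) {Γ : Subgroup SL(2, ℝ)} (hΓ : IsClosedSurfaceGroup Γ) (S : LeafSystem Γ)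
    {z : ℍ} (hz : S.OffPt z) {q : Bd × Bd} (hq : q ∈ S.L) (hqz : FrontPt q z) :
    ∃ r ∈ S.L, S.Near r z ∧ (r = q ∨ Inside q r) := by
  obtain ⟨-, -, -, htr, -, hirr, -⟩ := bd12
  -- a point behind `q`
  obtain ⟨w, hw⟩ := (pn3 Γ hΓ S (q.2, q.1) (S.swap q hq)).1
  have hw2 : 0 < side w q.1 q.2 := by
    have : side w q.2 q.1 < 0 := hw.2.1
    rw [XE3_side_sw pt1] at this; linarith
  set T : Set (Bd × Bd) := {r | r ∈ S.L ∧ FrontPt r z ∧ (r = q ∨ Inside q r)} with hT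
  have hfin : T.Finite := by
    refine ((gm5 Γ hΓ S).1 z w).subset ?_
    rintro r ⟨hr, h1, h2⟩
    refine ⟨hr, ?_⟩
    have h3 : 0 < side w r.1 r.2 := by
      rcases h2 with rfl | h2
      · exact hw2
      · exact pt3.1 q r w h2 hw2.le
    have h4 : side z r.1 r.2 < 0 := h1
    show side z r.1 r.2 * side w r.1 r.2 < 0
    exact mul_neg_of_neg_of_pos h4 h3
  have hirr' : ∀ a : Bd × Bd, ¬ Inside a a := fun a ha => hirr a a ⟨ha, ha⟩
  haveI : Finite T := hfin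
  haveI : IsTrans T (fun a b => Inside b.1 a.1) := ⟨fun a b c h1 h2 => htr _ _ _ h2 h1⟩
  haveI : Std.Irrefl (fun (a b : T) => Inside b.1 a.1) := ⟨fun a h => hirr' _ h⟩
  have hwf : WellFounded (fun (a b : T) => Inside b.1 a.1) :=
    Finite.wellFounded_of_trans_of_irrefl _
  obtain ⟨⟨r, hr⟩, -, hmin⟩ := hwf.has_min (Set.univ : Set T)
    ⟨⟨q, hq, hqz, Or.inl rfl⟩, Set.mem_univ _⟩
  refine ⟨r, hr.1, ⟨hz, hr.2.1, fun s hs hsz hrs => ?_⟩, hr.2.2⟩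
  have hs' : s ∈ T := by
    refine ⟨hs, hsz, Or.inr ?_⟩
    rcases hr.2.2 with h | h
    · rw [← h]; exact hrs
    · exact htr _ _ _ h hrs
  exact hmin ⟨s, hs'⟩ (Set.mem_univ _) hrs

/-- XE3: the ideal points not visible from a plaque lie behind exactly one boundary leaf -/
theorem XE3 (bd4 : BD4_stmt) (bd12 : BD12_stmt) (pt1 : PT1_stmt) (pt3 : PT3_stmt)
    (gm5 : GM5_stmt) (pn1 : PN1_stmt) (pn3 : PN3_stmt) : XE3_stmt := by
  intro Γ hΓ S z hz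
  refine ⟨fun c => ⟨fun h => ?_, ?_⟩, ?_, ?_⟩
  · obtain ⟨q, hq, h1, h2⟩ := (XE3_vis_iff pt1 S z c).1 h
    obtain ⟨r, hr, hrz, h3⟩ := XE3_outer bd12 pt1 pt3 gm5 pn3 hΓ S hz hq h1
    refine ⟨r, hr, hrz, ?_⟩
    rcases h3 with h3 | h3
    · rw [h3]; exact h2
    · exact XE3_behind_trans bd4 h2 h3
  · rintro ⟨p, hp, hpz, hpc⟩
    exact (XE3_vis_iff pt1 S z c).2 ⟨p, hp, hpz.2.1, hpc⟩
  · intro p hp q hq c hpz hqz hpc hqc
    by_contra hne
    exact XE3_facing_behind bd4 (XE3_facing pt1 pt3 pn1 hΓ S hp hq hpz hqz (Ne.symm hne)) hpc hqc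
  · intro p hp hpz
    have key : ∀ c, (c = p.1 ∨ c = p.2) → S.Vis z c := by
      intro c hc
      by_contra hv
      obtain ⟨q, hq, h1, h2⟩ := (XE3_vis_iff pt1 S z c).1 hv
      obtain ⟨r, hr, hrz, h3⟩ := XE3_outer bd12 pt1 pt3 gm5 pn3 hΓ S hz hq h1
      have h4 : Behind r c := by
        rcases h3 with h3 | h3
        · rw [h3]; exact h2
        · exact XE3_behind_trans bd4 h2 h3
      obtain ⟨b1, b2, b3, b4, b5, -⟩ := bd4
      have h5 : Cyc r.1 c r.2 := h4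
      have hrp : r ≠ p := by
        rintro rfl
        rcases hc with rfl | rfl
        · exact (b1 _ _ _ h5).1 rfl
        · exact (b1 _ _ _ h5).2.1 rfl
      obtain ⟨h6, h7⟩ := XE3_facing pt1 pt3 pn1 hΓ S hp hr hpz hrz hrp
      rcases hc with rfl | rfl
      · exact b3 _ _ _ h7 (b2 _ _ _ h5)
      · exact b3 _ _ _ (b5 _ _ _ _ h6 h7).2 (b2 _ _ _ h5)
    exact ⟨key _ (Or.inl rfl), key _ (Or.inr rfl)⟩

end

end AdSBend
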