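import Pool.Agent.helper1.AG.XE3

/-!
Modules XE4, XE5 (MP_a29257_gt): images of visible points.
-/

open scoped MatrixGroups LinearAlgebra.Projectivization
open Matrix UpperHalfPlane

namespace AdSBend

noncomputable section

open LeafSystem

/-- the twist along a leaf fixes the images of its endpoints -/
theorem XE4_fix (bd6 : BD6_stmt) (bd7 : BD7_stmt) (bd11 : BD11_stmt) (gm1 : GM1_stmt)
    (tw1 : TW1_stmt) {Γ : Subgroup SL(2, ℝ)} (hΓ : IsClosedSurfaceGroup Γ) {f : Bd ≃ Bd}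
    {r : SL(2, ℝ) → SL(2, ℝ)} (hf : IsConjBy Γ f r) {p : Bd × Bd}
    (hp : IsClosedGeodesic Γ p.1 p.2) (s : ℝ) (c : Bd) (hc : c = p.1 ∨ c = p.2) :
    twS (r (gen Γ p)) s • f c = f c := by
  have hg := gm1 Γ hΓ p hp
  have ha : Attracts (r (gen Γ p)) (f p.1, f p.2) :=
    (bd11 Γ f r hf).2.2.2.2.1 (gen Γ p) hg.1 p hg.2.1
  obtain ⟨F, hF⟩ := bd6.1 (f p.1, f p.2) ha.1
  rw [(tw1.1 _ F _ s ha hF).1]
  obtain ⟨h1, h2⟩ := hF
  obtain ⟨-, -, -, -, -, -, -, hD, -⟩ := bd7
  rcases hc with rfl | rfl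
  · rw [mul_smul, mul_smul, show f p.1 = F • bInf from h1.symm, inv_smul_smul, (hD s).1]
  · rw [mul_smul, mul_smul, show f p.2 = F • bZero from h2.symm, inv_smul_smul, (hD s).2]

/-- an ideal point visible from two points is an endpoint of every leaf separating them -/
theorem XE4_end (bd4 : BD4_stmt) {Γ : Subgroup SL(2, ℝ)}
    (S : LeafSystem Γ) {z z' : ℍ} {c : Bd} (hv : S.Vis z c) (hv' : S.Vis z' c) {p : Bd × Bd}
    (hp : p ∈ S.L) (hs : SepPts p.1 p.2 z z') : c = p.1 ∨ c = p.2 := by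
  by_contra hc
  push Not at hc
  have hne : p.1 ≠ p.2 := (S.closed p hp).1
  have h1 := hv p hp
  have h2 := hv' p hp
  have hs' : side z p.1 p.2 * side z' p.1 p.2 < 0 := hs
  rcases bd4.2.2.2.1 p.1 c p.2 (Ne.symm hc.1) hc.2 (Ne.symm hne) with h | h
  · -- `c` behind `p`
    rcases mul_neg_iff.1 hs' with ⟨h3, h4⟩ | ⟨h3, h4⟩
    · exact h2 (Or.inr ⟨h4, h⟩)
    · exact h1 (Or.inr ⟨h3, h⟩)
  · have h' : Cyc p.2 c p.1 := bd4.2.1 _ _ _ h
    rcases mul_neg_iff.1 hs' with ⟨h3, h4⟩ | ⟨h3, h4⟩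
    · exact h1 (Or.inl ⟨h3, h'⟩)
    · exact h2 (Or.inl ⟨h4, h'⟩)

theorem XE4_geo_sw {Γ : Subgroup SL(2, ℝ)} {x y : Bd} (h : IsClosedGeodesic Γ x y) :
    IsClosedGeodesic Γ y x := by
  obtain ⟨h1, γ, h2, h3, h4, h5, h6⟩ := h
  exact ⟨Ne.symm h1, γ, h2, h3, h4, h6, h5⟩

/-- XE4: the images of visible points do not depend on the plaque -/
theorem XE4 (bd4 : BD4_stmt) (bd6 : BD6_stmt) (bd7 : BD7_stmt) (bd11 : BD11_stmt)
    (pt1 : PT1_stmt) (gm1 : GM1_stmt) (gm3 : GM3_stmt) (tw1 : TW1_stmt) : XE4_stmt := by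
  intro Γ hΓ S f r τ A hf hA z z' c hz hz' hv hv'
  by_cases hs : S.SamePl z z'
  · rw [hA.1 z z' hz hz' hs]
  · unfold LeafSystem.SamePl at hs
    push Not at hs
    -- an oriented separating leaf
    have hex : ∃ q ∈ S.L, FrontPt q z ∧ BehindPt q z' ∧ SepPts q.1 q.2 z z' := by
      obtain ⟨p, hp, hsep⟩ := hs
      have hs' : side z p.1 p.2 * side z' p.1 p.2 < 0 := hsep
      rcases mul_neg_iff.1 hs' with ⟨h3, h4⟩ | ⟨h3, h4⟩
      · refine ⟨(p.2, p.1), S.swap p hp, ?_, ?_, ?_⟩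
        · show side z p.2 p.1 < 0
          rw [XE3_side_sw pt1]; linarith
        · show 0 < side z' p.2 p.1
          rw [XE3_side_sw pt1]; linarith
        · show side z p.2 p.1 * side z' p.2 p.1 < 0
          rw [XE3_side_sw pt1 z p.1 p.2, XE3_side_sw pt1 z' p.1 p.2]; linarith
      · exact ⟨p, hp, h3, h4, hsep⟩
    obtain ⟨q, hq, h1, h2, h3⟩ := hex
    have hcq := XE4_end bd4 S hv hv' hq h3
    have hacr : S.Across q z z' := by
      refine ⟨hq, h1, h2, fun q' hq' hsep => ?_⟩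
      have hcq' := XE4_end bd4 S hv hv' hq' hsep
      have hg := S.closed q hq
      have hg' := S.closed q' hq'
      rcases hcq with rfl | rfl <;> rcases hcq' with h | h
      · left
        have := gm3 Γ hΓ q.1 q.2 q'.2 hg (by rw [h]; exact hg')
        exact Prod.ext h.symm this.symm
      · right
        have := gm3 Γ hΓ q.1 q.2 q'.1 hg (by rw [h]; exact XE4_geo_sw hg')
        exact Prod.ext this.symm h.symm
      · right
        have := gm3 Γ hΓ q.2 q.1 q'.2 (XE4_geo_sw hg) (by rw [h]; exact hg')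
        exact Prod.ext h.symm this.symm
      · left
        have := gm3 Γ hΓ q.2 q.1 q'.1 (XE4_geo_sw hg) (by rw [h]; exact XE4_geo_sw hg')
        exact Prod.ext this.symm h.symm
    rw [hA.2 z z' q hz hz' hacr, mul_smul,
      XE4_fix bd6 bd7 bd11 gm1 tw1 hΓ hf (S.closed q hq) _ c hcq]

/-- XE5: images of the visible points behind a boundary leaf stay behind it -/
theorem XE5 (bd2 : BD2_stmt) (bd4 : BD4_stmt) (bd6 : BD6_stmt) (bd7 : BD7_stmt)
    (bd11 : BD11_stmt) (bd12 : BD12_stmt) (pt1 : PT1_stmt) (gm1 : GM1_stmt) (gm5 : GM5_stmt)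
    (pt3 : PT3_stmt) (pn1 : PN1_stmt) (pn3 : PN3_stmt)
    (tw1 : TW1_stmt) (xe3 : XE3_stmt) (xe4 : XE4_stmt) : XE5_stmt := by
  intro Γ hΓ S f r τ A hf hA z z' c p hp hz hz' hpz hpc hv'
  -- induction on the number of separating leaves
  suffices H : ∀ n : ℕ, ∀ z p, p ∈ S.L → S.OffPt z → S.Near p z → Behind p c →
      {q : Bd × Bd | q ∈ S.L ∧ SepPts q.1 q.2 z z'}.ncard ≤ n →
      Cyc (A z • f p.1) (A z' • f c) (A z • f p.2) from
    H _ z p hp hz hpz hpc le_rfl
  intro n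
  induction n with
  | zero =>
    intro z p hp hz hpz hpc hn
    exfalso
    have hfin := (gm5 Γ hΓ S).1 z z'
    have hempty := (Set.ncard_eq_zero hfin).1 (Nat.le_zero.1 hn)
    have h1 : side z p.1 p.2 < 0 := hpz.2.1
    have h2 : 0 < side z' p.1 p.2 := by
      rcases lt_trichotomy (side z' p.1 p.2) 0 with h | h | h
      · exact absurd (Or.inr ⟨h, hpc⟩) (hv' p hp)
      · exact absurd h (hz' p hp)
      · exact h
    have : p ∈ {q : Bd × Bd | q ∈ S.L ∧ SepPts q.1 q.2 z z'} :=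
      ⟨hp, mul_neg_of_neg_of_pos h1 h2⟩
    rw [hempty] at this
    exact this
  | succ n ih =>
    intro z p hp hz hpz hpc hn
    have h1 : side z p.1 p.2 < 0 := hpz.2.1
    have h2 : 0 < side z' p.1 p.2 := by
      rcases lt_trichotomy (side z' p.1 p.2) 0 with h | h | h
      · exact absurd (Or.inr ⟨h, hpc⟩) (hv' p hp)
      · exact absurd h (hz' p hp)
      · exact h
    obtain ⟨w, hw⟩ := (pn3 Γ hΓ S (p.2, p.1) (S.swap p hp)).1
    have hwoff : S.OffPt w := hw.1
    have hacr : S.Across p z w := (pn3 Γ hΓ S p hp).2.1 z w hpz hw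
    have hAw : A w = A z * twS (r (gen Γ p)) (τ p) := hA.2 z w p hz hwoff hacr
    have hfix : ∀ d, (d = p.1 ∨ d = p.2) → A w • f d = A z • f d := by
      intro d hd
      rw [hAw, mul_smul, XE4_fix bd6 bd7 bd11 gm1 tw1 hΓ hf (S.closed p hp) _ d hd]
    have hcyc : ∀ x y u : Bd, Cyc x y u → Cyc (A w • f x) (A w • f y) (A w • f u) :=
      fun x y u h => (bd2 (A w) _ _ _).2 (hf.1 _ _ _ h)
    by_cases hvw : S.Vis w c
    · rw [xe4 Γ hΓ S f r τ A hf hA z' w c hz' hwoff hv' hvw, ← hfix p.1 (Or.inl rfl),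
        ← hfix p.2 (Or.inr rfl)]
      exact hcyc _ _ _ hpc
    · obtain ⟨q, hq, hqw, hqc⟩ := ((xe3 Γ hΓ S w hwoff).1 c).1 hvw
      -- `q` is different from `sw p`
      have hqne : q ≠ (p.2, p.1) := by
        rintro rfl
        exact bd4.2.2.1 _ _ _ hpc (bd4.2.1 _ _ _ (bd4.2.1 _ _ _ hqc))
      have hface := XE3_facing pt1 pt3 pn1 hΓ S (S.swap p hp) hq hw hqw hqne
      have hins : Inside q p := (bd12.2.1 q (p.2, p.1)).1 ((bd12.1 _ _).1 hface)
      -- fewer leaves
      have hfin := (gm5 Γ hΓ S).1 z z'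
      have hlt : {q : Bd × Bd | q ∈ S.L ∧ SepPts q.1 q.2 w z'}.ncard <
          {q : Bd × Bd | q ∈ S.L ∧ SepPts q.1 q.2 z z'}.ncard := by
        refine Set.ncard_lt_ncard ?_ hfin
        have hpw : 0 < side w p.1 p.2 := hacr.2.2.1
        refine ⟨?_, ?_⟩
        · rintro s ⟨hs, hsep⟩
          refine ⟨hs, ?_⟩
          have hsep' : side w s.1 s.2 * side z' s.1 s.2 < 0 := hsep
          have hsne : ¬ (s = p ∨ s = (p.2, p.1)) := by
            rintro (rfl | rfl)
            · nlinarith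
            · have h3 : side w p.2 p.1 * side z' p.2 p.1 < 0 := hsep
              rw [XE3_side_sw pt1 w p.1 p.2, XE3_side_sw pt1 z' p.1 p.2] at h3
              nlinarith
          have hns : ¬ SepPts s.1 s.2 z w := fun h => hsne (hacr.2.2.2 s hs h)
          have h4 : ¬ side z s.1 s.2 * side w s.1 s.2 < 0 := hns
          have h5 : side z s.1 s.2 ≠ 0 := hz s hs
          have h6 : side w s.1 s.2 ≠ 0 := hwoff s hs
          have h7 : 0 < side z s.1 s.2 * side w s.1 s.2 :=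
            lt_of_le_of_ne (not_lt.1 h4) (Ne.symm (mul_ne_zero h5 h6))
          show side z s.1 s.2 * side z' s.1 s.2 < 0
          rcases mul_pos_iff.1 h7 with ⟨h8, h9⟩ | ⟨h8, h9⟩
          · have h10 : side z' s.1 s.2 < 0 := by
              by_contra h
              push Not at h
              nlinarith
            exact mul_neg_of_pos_of_neg h8 h10
          · have h10 : 0 < side z' s.1 s.2 := by
              by_contra h
              push Not at h
              nlinarith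
            exact mul_neg_of_neg_of_pos h8 h10
        · intro hsub
          have : p ∈ {q : Bd × Bd | q ∈ S.L ∧ SepPts q.1 q.2 w z'} :=
            hsub ⟨hp, mul_neg_of_neg_of_pos h1 h2⟩
          have h3 : side w p.1 p.2 * side z' p.1 p.2 < 0 := this.2
          nlinarith
      have hih := ih w q hq hwoff hqw hqc (by omega)
      have hins' : Inside (A w • f q.1, A w • f q.2) (A z • f p.1, A z • f p.2) := by
        have e1 := hfix p.1 (Or.inl rfl)
        have e2 := hfix p.2 (Or.inr rfl)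
        refine ⟨?_, ?_⟩
        · show Cyc (A z • f p.1) (A w • f q.1) (A w • f q.2)
          rw [← e1]; exact hcyc _ _ _ hins.1
        · show Cyc (A z • f p.1) (A w • f q.2) (A z • f p.2)
          rw [← e1, ← e2]; exact hcyc _ _ _ hins.2
      exact XE3_behind_trans bd4 (q := (A w • f q.1, A w • f q.2)) hih hins'

end

end AdSBend
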